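import Pool.Agent.W973.SRR.Defs2
import Pool.Agent.H671R2.PolyAuto

set_option autoImplicit false

namespace Pool.Agent.W158.SRR

open Pool.Agent.W973.SRR Pool.Agent.NPC

theorem poly_eqc {α : Type} [TEnc α] {f : α → ℕ} (hf : NPC.Poly f) :
    NPC.Poly (fun a => eqc (f a)) := by
  unfold eqc
  fun_prop

theorem pc : S4_PC := by
  unfold S4_PC col
  refine Poly.flatMap (Poly.id) ?_
  refine Poly.cons ?_ (Poly.append (poly_eqc (by fun_prop)) (Poly.append (poly_eqc (by fun_prop))
    (poly_eqc (by fun_prop))))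
  fun_prop

end Pool.Agent.W158.SRR
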